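import Pool.Agent.Q98.PosC

/-!
# Partially positive words that are not potentially positive (MP_bbb74b_al)

For every rank `r ≥ 3` the word `a ^ 5 * (b * c * b⁻¹ * c⁻¹) ^ 5` of the free group of rank `r` (with `a`, `b`,
`c` distinct generators) is partially positive, and no automorphism of the free group maps it to
a positive word.
-/

set_option autoImplicit false

namespace Pool.Agent.Results.MP_bbb74b_al.NotPotentiallyPos

open FreeGroup (toWord mk mul_mk inv_mk mk_toWord invRev invRev_length toWord_of toWord_inv
  toWord_mul_sublist)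
open Pool.Agent.Q98.Pos

/-- A word is positive if it lies in the submonoid generated by the free generators. -/
def Positive {X : Type} (w : FreeGroup X) : Prop :=
  w ∈ Submonoid.closure (Set.range (FreeGroup.of : X → FreeGroup X))

/-- A word is potentially positive if some automorphism of the free group maps it to a positive
word. -/
def PotentiallyPositive {X : Type} (w : FreeGroup X) : Prop :=
  ∃ φ : FreeGroup X ≃* FreeGroup X, Positive (φ w)

/-- A word is partially positive if some generator `a` occurs in its reduced form, while `a⁻¹` does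
not occur. -/
def PartiallyPositive {X : Type} [DecidableEq X] (w : FreeGroup X) : Prop :=
  ∃ a : X, (a, true) ∈ w.toWord ∧ (a, false) ∉ w.toWord

/-- The commutator `b * c * b⁻¹ * c⁻¹` of two free generators. -/
def comm {X : Type} (b c : X) : FreeGroup X :=
  FreeGroup.of b * FreeGroup.of c * (FreeGroup.of b)⁻¹ * (FreeGroup.of c)⁻¹

section
variable {X : Type} [DecidableEq X]

theorem allPos_of_positive {w : FreeGroup X} (h : Positive w) : AllPos w.toWord := by
  rw [← neg_eq_zero_iff]
  unfold Positive at h
  induction h using Submonoid.closure_induction with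
  | mem x hx =>
    obtain ⟨y, rfl⟩ := hx
    rw [neg_eq_zero_iff]
    intro z hz
    simp only [toWord_of, List.mem_singleton] at hz
    rw [hz]
  | one => simp [neg]
  | mul x y _ _ hx hy =>
    have := neg_mul x y
    omega

/-- total exponent sum -/
def expSum : FreeGroup X →* Multiplicative ℤ := FreeGroup.lift (fun _ => Multiplicative.ofAdd 1)

theorem expSum_pos {L : List (X × Bool)} (h : AllPos L) :
    expSum (mk L) = Multiplicative.ofAdd (L.length : ℤ) := by
  induction L with
  | nil => simp [← FreeGroup.one_eq_mk]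
  | cons x L ih =>
    have e : x :: L = [x] ++ L := rfl
    have hx : x.2 = true := h x (by simp)
    have hx' : x = (x.1, true) := Prod.ext rfl hx
    rw [e, ← mul_mk, map_mul, ih (fun y hy => h y (by simp [hy])), hx']
    have : (mk [(x.1, true)] : FreeGroup X) = FreeGroup.of x.1 := rfl
    rw [this]
    simp only [expSum, FreeGroup.lift_apply_of, ← ofAdd_add]
    congr 1
    simp
    ring

theorem expSum_neg {L : List (X × Bool)} (h : AllNeg L) :
    expSum (mk L) = Multiplicative.ofAdd (-(L.length : ℤ)) := by
  have h1 : AllPos (invRev L) := by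
    intro x hx
    have := h _ (mem_invRev.1 hx)
    simpa using this
  have h2 := expSum_pos h1
  rw [← inv_mk, map_inv, invRev_length] at h2
  rw [ofAdd_neg, ← h2, inv_inv]

theorem noncomm (a b c : X) (hab : a ≠ b) (hac : a ≠ c) (hbc : b ≠ c) :
    (FreeGroup.of a : FreeGroup X) * comm b c ≠
      comm b c * FreeGroup.of a := by
  intro h
  let f : FreeGroup X →* Equiv.Perm (Fin 3) :=
    FreeGroup.lift (fun x => if x = c then Equiv.swap 1 2 else Equiv.swap 0 1)
  have h1 := congrArg f h
  have fa : f (FreeGroup.of a) = Equiv.swap 0 1 := by simp [f, hac]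
  have fb : f (FreeGroup.of b) = Equiv.swap 0 1 := by simp [f, hbc]
  have fc : f (FreeGroup.of c) = Equiv.swap 1 2 := by simp [f]
  simp only [comm, map_mul, map_inv, fa, fb, fc] at h1
  revert h1
  decide

theorem not_pot (a b c : X) (hab : a ≠ b) (hac : a ≠ c) (hbc : b ≠ c) :
    ¬ PotentiallyPositive
      ((FreeGroup.of a : FreeGroup X) ^ 5 * comm b c ^ 5) := by
  rintro ⟨φ, hφ⟩
  have hpos := allPos_of_positive hφ
  rw [map_mul, map_pow, map_pow] at hpos
  obtain ⟨g, L, hL0, hL, hPN⟩ := main (a := φ (FreeGroup.of a))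
    (v := φ (comm b c)) (by
      rw [← map_mul, ← map_mul]
      intro h
      exact noncomm a b c hab hac hbc (φ.injective h)) (m := 5) (k := 5) le_rfl le_rfl 1 _ hpos
      (by group)
  have h1 : expSum (mk L) = 1 := by
    rw [← hL]
    simp only [comm, map_mul, map_inv]
    have key : ∀ x y z : Multiplicative ℤ, z⁻¹ * (x * y * x⁻¹ * y⁻¹) * z = 1 := by
      intro x y z
      rw [mul_comm x y]
      group
    exact key _ _ _
  have hlen : (L.length : ℤ) ≠ 0 := by
    intro h
    apply hL0
    exact List.length_eq_zero_iff.1 (by exact_mod_cast h)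
  rcases hPN with h2 | h2
  · rw [expSum_pos h2, ofAdd_eq_one] at h1
    exact hlen h1
  · rw [expSum_neg h2, ofAdd_eq_one] at h1
    omega

/-- exponent sum in the generator `a` -/
def expAt (a : X) : FreeGroup X →* Multiplicative ℤ :=
  FreeGroup.lift (fun x => if x = a then Multiplicative.ofAdd 1 else 1)

theorem expAt_eq_one (a : X) {L : List (X × Bool)} (h : ∀ x ∈ L, x.1 ≠ a) :
    expAt a (mk L) = 1 := by
  induction L with
  | nil => simp [← FreeGroup.one_eq_mk]
  | cons x L ih =>
    have e : x :: L = [x] ++ L := rfl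
    rw [e, ← mul_mk, map_mul, ih (fun y hy => h y (by simp [hy])), mul_one]
    have hx : x.1 ≠ a := h x (by simp)
    obtain ⟨y, s⟩ := x
    cases s
    · have : (mk [(y, false)] : FreeGroup X) = (FreeGroup.of y)⁻¹ := rfl
      rw [this, map_inv, expAt, FreeGroup.lift_apply_of, if_neg hx, inv_one]
    · have : (mk [(y, true)] : FreeGroup X) = FreeGroup.of y := rfl
      rw [this, expAt, FreeGroup.lift_apply_of, if_neg hx]

theorem part (a b c : X) (hab : a ≠ b) (hac : a ≠ c) :
    PartiallyPositive
      ((FreeGroup.of a : FreeGroup X) ^ 5 * comm b c ^ 5) := by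
  have hmul : ∀ (g h : FreeGroup X), (a, false) ∉ g.toWord → (a, false) ∉ h.toWord →
      (a, false) ∉ (g * h).toWord := by
    intro g h hg hh hm
    have := (toWord_mul_sublist g h).subset hm
    rw [List.mem_append] at this
    exact this.elim hg hh
  have hpow : ∀ (g : FreeGroup X) (n : ℕ), (a, false) ∉ g.toWord → (a, false) ∉ (g ^ n).toWord := by
    intro g n hg
    induction n with
    | zero => simp
    | succ n ih => rw [pow_succ]; exact hmul _ _ ih hg
  have hof : ∀ x : X, (a, false) ∉ (FreeGroup.of x : FreeGroup X).toWord := by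
    intro x; simp [toWord_of]
  have hinv : ∀ x : X, a ≠ x → (a, false) ∉ ((FreeGroup.of x : FreeGroup X)⁻¹).toWord := by
    intro x hx; simp [toWord_inv, toWord_of, invRev, hx]
  have h0 : (a, false) ∉
      ((FreeGroup.of a : FreeGroup X) ^ 5 * comm b c ^ 5).toWord := by
    refine hmul _ _ (hpow _ _ (hof a)) (hpow _ _ ?_)
    exact hmul _ _ (hmul _ _ (hmul _ _ (hof b) (hof c)) (hinv b hab)) (hinv c hac)
  refine ⟨a, ?_, h0⟩
  by_contra h1
  have h2 := expAt_eq_one a (L := ((FreeGroup.of a : FreeGroup X) ^ 5 *
      comm b c ^ 5).toWord) (by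
    rintro ⟨x, s⟩ hx hxa
    simp only at hxa
    subst hxa
    cases s
    · exact h0 hx
    · exact h1 hx)
  have e1 : expAt a (FreeGroup.of b) = 1 := by
    rw [expAt, FreeGroup.lift_apply_of, if_neg hab.symm]
  have e2 : expAt a (FreeGroup.of c) = 1 := by
    rw [expAt, FreeGroup.lift_apply_of, if_neg hac.symm]
  have e3 : expAt a (FreeGroup.of a) = Multiplicative.ofAdd 1 := by
    rw [expAt, FreeGroup.lift_apply_of, if_pos rfl]
  rw [mk_toWord] at h2
  simp only [comm, map_mul, map_inv, map_pow, e1, e2, e3, inv_one, mul_one, one_pow] at h2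
  revert h2
  decide

end

/-- For every rank `r ≥ 3` there are distinct generators `a`, `b`, `c` of the free group of rank `r`
such that the word `a ^ 5 * (b * c * b⁻¹ * c⁻¹) ^ 5` is partially positive but not potentially positive. -/
theorem result (r : ℕ) (hr : 3 ≤ r) : ∃ a b c : Fin r, a ≠ b ∧ a ≠ c ∧ b ≠ c ∧
    PartiallyPositive ((FreeGroup.of a : FreeGroup (Fin r)) ^ 5 *
      comm b c ^ 5) ∧
    ¬ PotentiallyPositive ((FreeGroup.of a : FreeGroup (Fin r)) ^ 5 *
      comm b c ^ 5) := by
  have hab : (⟨0, by omega⟩ : Fin r) ≠ ⟨1, by omega⟩ := by simp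
  have hac : (⟨0, by omega⟩ : Fin r) ≠ ⟨2, by omega⟩ := by simp
  have hbc : (⟨1, by omega⟩ : Fin r) ≠ ⟨2, by omega⟩ := by simp
  exact ⟨_, _, _, hab, hac, hbc, part _ _ _ hab hac, not_pot _ _ _ hab hac hbc⟩

end Pool.Agent.Results.MP_bbb74b_al.NotPotentiallyPos
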